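import Pool.Agent.H57.RED.Stmts

set_option autoImplicit false

namespace Pool.MCR.Red

open Pool.MCR

namespace CNU66

variable {V : Type} {G : SimpleGraph V} (D : Drawing G)

theorem cross_symm {e f : Sym2 V} (h : D.Crosses e f) : D.Crosses f e := by
  obtain ⟨p, h1, h2, h3⟩ := h
  exact ⟨p, h2, h1, h3⟩

theorem pos_mem {u v : V} (h : G.Adj u v) : D.pos u ∈ D.arc s(u, v) := by
  obtain ⟨γ, -, hγ⟩ := D.arc_curve u v h
  rw [← hγ]
  exact ⟨0, γ.source⟩

/-- crossing edges have no common end -/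
theorem no_common {a b c : V} (hab : G.Adj a b) (hac : G.Adj a c) (hne : b ≠ c) :
    ¬ D.Crosses s(a, b) s(a, c) := by
  rintro ⟨p, h1, h2, h3⟩
  have hn : s(a, b) ≠ s(a, c) := by
    intro h
    exact hne (Sym2.congr_right.1 h)
  have := D.arc_inter _ ((SimpleGraph.mem_edgeSet G).2 hab) _ ((SimpleGraph.mem_edgeSet G).2 hac) hn
    ⟨h1, h2⟩ ⟨pos_mem D hab, pos_mem D hac⟩
  exact h3 ⟨a, this.symm⟩

theorem indep {a b c d : V} (hab : G.Adj a b) (hcd : G.Adj c d) (hne : s(a, b) ≠ s(c, d))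
    (h : D.Crosses s(a, b) s(c, d)) : a ≠ c ∧ a ≠ d ∧ b ≠ c ∧ b ≠ d := by
  refine ⟨?_, ?_, ?_, ?_⟩
  · rintro rfl
    refine no_common D hab hcd ?_ h
    rintro rfl
    exact hne rfl
  · rintro rfl
    rw [Sym2.eq_swap (a := c)] at h hne
    refine no_common D hab hcd.symm ?_ h
    rintro rfl
    exact hne rfl
  · rintro rfl
    rw [Sym2.eq_swap (a := a)] at h hne
    refine no_common D hab.symm hcd ?_ h
    rintro rfl
    exact hne rfl
  · rintro rfl
    rw [Sym2.eq_swap (a := a), Sym2.eq_swap (a := c)] at h hne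
    refine no_common D hab.symm hcd.symm ?_ h
    rintro rfl
    exact hne rfl

/-- the two other matchings -/
theorem no_two (hC : C4_S) {a b c d : V} (hab : G.Adj a b) (hcd : G.Adj c d) (hac : G.Adj a c)
    (hbd : G.Adj b d) (nad : a ≠ d) (nbc : b ≠ c) (h : D.Crosses s(a, b) s(c, d))
    (h' : D.Crosses s(a, c) s(b, d)) : False := by
  refine hC V G D a b d c hab hbd hcd.symm hac.symm nad nbc ⟨?_, ?_⟩
  · rw [Sym2.eq_swap (a := d)]
    exact h
  · rw [Sym2.eq_swap (a := c)]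
    exact cross_symm D h'

theorem inj1 (hC : C4_S) {a b c d b' c' d' : V} (hab : G.Adj a b) (hcd : G.Adj c d)
    (nac : a ≠ c) (nad : a ≠ d) (nbc : b ≠ c) (nbd : b ≠ d)
    (hab' : G.Adj a b') (hcd' : G.Adj c' d')
    (nac' : a ≠ c') (nad' : a ≠ d') (nbc' : b' ≠ c') (nbd' : b' ≠ d')
    (h : D.Crosses s(a, b) s(c, d)) (h' : D.Crosses s(a, b') s(c', d'))
    (hset : ∀ v, (v = a ∨ v = b' ∨ v = c' ∨ v = d') → (v = a ∨ v = b ∨ v = c ∨ v = d)) :
    s(s(a, b), s(c, d)) = s(s(a, b'), s(c', d')) := by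
  have ncd' := hcd'.ne
  have nab' := hab'.ne
  have k1 := hset b' (Or.inr (Or.inl rfl))
  have k2 := hset c' (Or.inr (Or.inr (Or.inl rfl)))
  have k3 := hset d' (Or.inr (Or.inr (Or.inr rfl)))
  rcases k1 with rfl | rfl | rfl | rfl
  · exact absurd rfl nab'
  · rcases k2 with rfl | rfl | rfl | rfl
    · exact absurd rfl nac'
    · exact absurd rfl nbc'
    · rcases k3 with rfl | rfl | rfl | rfl
      · exact absurd rfl nad'
      · exact absurd rfl nbd'
      · exact absurd rfl ncd'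
      · rfl
    · rcases k3 with rfl | rfl | rfl | rfl
      · exact absurd rfl nad'
      · exact absurd rfl nbd'
      · rw [Sym2.eq_swap (a := d') (b := c')]
      · exact absurd rfl ncd'
  · exfalso
    rcases k2 with rfl | rfl | rfl | rfl
    · exact absurd rfl nac'
    · rcases k3 with rfl | rfl | rfl | rfl
      · exact absurd rfl nad'
      · exact absurd rfl ncd'
      · exact absurd rfl nbd'
      · exact no_two D hC hab hcd hab' hcd' nad nbc h h'
    · exact absurd rfl nbc'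
    · rcases k3 with rfl | rfl | rfl | rfl
      · exact absurd rfl nad'
      · rw [Sym2.eq_swap (a := c')] at h'
        exact no_two D hC hab hcd hab' hcd'.symm nad nbc h h'
      · exact absurd rfl nbd'
      · exact absurd rfl ncd'
  · exfalso
    rw [Sym2.eq_swap (a := c)] at h
    rcases k2 with rfl | rfl | rfl | rfl
    · exact absurd rfl nac'
    · rcases k3 with rfl | rfl | rfl | rfl
      · exact absurd rfl nad'
      · exact absurd rfl ncd'
      · exact no_two D hC hab hcd.symm hab' hcd' nac nbd h h'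
      · exact absurd rfl nbd'
    · rcases k3 with rfl | rfl | rfl | rfl
      · exact absurd rfl nad'
      · rw [Sym2.eq_swap (a := c')] at h'
        exact no_two D hC hab hcd.symm hab' hcd'.symm nac nbd h h'
      · exact absurd rfl ncd'
      · exact absurd rfl nbd'
    · exact absurd rfl nbc'

theorem inj2 (hC : C4_S) {a b c d a' b' c' d' : V} (hab : G.Adj a b) (hcd : G.Adj c d)
    (nac : a ≠ c) (nad : a ≠ d) (nbc : b ≠ c) (nbd : b ≠ d)
    (hab' : G.Adj a' b') (hcd' : G.Adj c' d')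
    (nac' : a' ≠ c') (nad' : a' ≠ d') (nbc' : b' ≠ c') (nbd' : b' ≠ d')
    (h : D.Crosses s(a, b) s(c, d)) (h' : D.Crosses s(a', b') s(c', d'))
    (hset : ∀ v, (v = a' ∨ v = b' ∨ v = c' ∨ v = d') ↔ (v = a ∨ v = b ∨ v = c ∨ v = d)) :
    s(s(a, b), s(c, d)) = s(s(a', b'), s(c', d')) := by
  rcases (hset a).2 (Or.inl rfl) with e | e | e | e
  · subst e
    exact inj1 D hC hab hcd nac nad nbc nbd hab' hcd' nac' nad' nbc' nbd' h h'
      (fun v hv => (hset v).1 hv)
  · subst e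
    rw [Sym2.eq_swap (a := a')] at h'
    rw [inj1 D hC hab hcd nac nad nbc nbd hab'.symm hcd' nbc' nbd' nac' nad' h h'
      (fun v hv => (hset v).1 (by tauto)), Sym2.eq_swap (a := a') (b := a)]
  · subst e
    rw [inj1 D hC hab hcd nac nad nbc nbd hcd' hab' nac'.symm nbc'.symm nad'.symm nbd'.symm h
      (cross_symm D h') (fun v hv => (hset v).1 (by tauto)), Sym2.eq_swap]
  · subst e
    have h2 := cross_symm D h'
    rw [Sym2.eq_swap (a := c')] at h2
    rw [inj1 D hC hab hcd nac nad nbc nbd hcd'.symm hab' nad'.symm nbd'.symm nac'.symm nbc'.symm h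
      h2 (fun v hv => (hset v).1 (by tauto)), Sym2.eq_swap, Sym2.eq_swap (a := c') (b := a)]

open Classical in
/-- the vertices of a pair of edges -/
noncomputable def vs [Fintype V] (q : Sym2 (Sym2 V)) : Finset V :=
  Finset.univ.filter fun v => ∃ e ∈ q, v ∈ e

theorem mem_vs [Fintype V] (a b c d v : V) :
    v ∈ vs s(s(a, b), s(c, d)) ↔ v = a ∨ v = b ∨ v = c ∨ v = d := by
  unfold vs
  simp only [Finset.mem_filter, Finset.mem_univ, true_and, Sym2.mem_iff]
  constructor
  · rintro ⟨e, rfl | rfl, h⟩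
    · rw [Sym2.mem_iff] at h
      tauto
    · rw [Sym2.mem_iff] at h
      tauto
  · rintro (rfl | rfl | rfl | rfl)
    · exact ⟨_, Or.inl rfl, by simp⟩
    · exact ⟨_, Or.inl rfl, by simp⟩
    · exact ⟨_, Or.inr rfl, by simp⟩
    · exact ⟨_, Or.inr rfl, by simp⟩

/-- coordinates of a crossing pair -/
theorem coords {q : Sym2 (Sym2 V)} (hq : ∃ e ∈ G.edgeSet, ∃ f ∈ G.edgeSet, e ≠ f ∧ q = s(e, f) ∧
    D.Crosses e f) : ∃ a b c d : V, q = s(s(a, b), s(c, d)) ∧ G.Adj a b ∧ G.Adj c d ∧ a ≠ c ∧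
      a ≠ d ∧ b ≠ c ∧ b ≠ d ∧ D.Crosses s(a, b) s(c, d) := by
  obtain ⟨e, he, f, hf, hne, rfl, hc⟩ := hq
  induction e using Sym2.ind with
  | _ a b =>
    induction f using Sym2.ind with
    | _ c d =>
      rw [SimpleGraph.mem_edgeSet] at he hf
      obtain ⟨h1, h2, h3, h4⟩ := indep D he hf hne hc
      exact ⟨a, b, c, d, rfl, he, hf, h1, h2, h3, h4, hc⟩

end CNU66

open CNU66

theorem cnu_thm (hC : C4_S) : CNU_S := by
  intro V _ G D
  unfold Drawing.cr
  refine Set.ncard_le_ncard_of_injOn vs ?_ ?_ (Set.toFinite _)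
  · intro q hq
    obtain ⟨a, b, c, d, rfl, hab, hcd, h1, h2, h3, h4, hc⟩ := coords D hq
    exact ⟨a, b, c, d, hab.ne, h1, h2, h3, h4, hcd.ne, mem_vs a b c d, hab, hcd, hc⟩
  · intro q hq q' hq' hqq
    obtain ⟨a, b, c, d, rfl, hab, hcd, h1, h2, h3, h4, hc⟩ := coords D hq
    obtain ⟨a', b', c', d', rfl, hab', hcd', h1', h2', h3', h4', hc'⟩ := coords D hq'
    refine inj2 D hC hab hcd h1 h2 h3 h4 hab' hcd' h1' h2' h3' h4' hc hc' fun v => ?_
    rw [← mem_vs, ← mem_vs, hqq]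

end Pool.MCR.Red
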